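import Pool.Agent.Results.MP_6b55e5_an.RogersQ2

/-!
# Circles and thickened Kakeya sets

`K ε`: a compact plane set of measure at most `ε` which contains, for every slope `a ∈ [-1,1]`, all
segments `y = a x + b`, `0 ≤ x ≤ 1`, with `b` in an interval of length `2 ρ`.  A circle with centre
`c` in a fixed box meets `s K` in an arc of length at least `s`.
-/

set_option autoImplicit false

open MeasureTheory Set
open scoped ENNReal Pointwise

namespace Pool.Agent.N247.Circ

open Pool.Agent.Results.MP_6b55e5_an.RogersQ2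

/-- the union of the pieces of strips -/
def KK (F : List (ℝ × ℝ × ℝ)) : Set Plane :=
  ⋃ f ∈ F, {v : Plane | 0 ≤ v 0 ∧ v 0 ≤ 1 ∧ |v 1 - f.1 * v 0 - f.2.1| ≤ f.2.2}

theorem isClosed_piece (p q w : ℝ) :
    IsClosed {v : Plane | 0 ≤ v 0 ∧ v 0 ≤ 1 ∧ |v 1 - p * v 0 - q| ≤ w} := by
  simp only [Set.ofPred_and]
  exact (isClosed_le continuous_const (by fun_prop)).inter
      ((isClosed_le (by fun_prop) continuous_const).inter
        (isClosed_le (by fun_prop) continuous_const))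

theorem isCompact_piece (p q w : ℝ) :
    IsCompact {v : Plane | 0 ≤ v 0 ∧ v 0 ≤ 1 ∧ |v 1 - p * v 0 - q| ≤ w} := by
  apply Metric.isCompact_of_isClosed_isBounded (isClosed_piece p q w)
  rw [Metric.isBounded_iff_subset_closedBall 0]
  refine ⟨1 + (|p| + |q| + |w|), ?_⟩
  rintro v ⟨h0, h1, h2⟩
  have h3 : |v 1| ≤ |p| + |q| + |w| := by
    have e : v 1 = (v 1 - p * v 0 - q) + (p * v 0 + q) := by ring
    rw [e]
    refine (abs_add_le _ _).trans ?_
    have h4 : |p * v 0 + q| ≤ |p| + |q| := by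
      refine (abs_add_le _ _).trans ?_
      rw [abs_mul, abs_of_nonneg h0]
      nlinarith [abs_nonneg p]
    linarith [le_abs_self w]
  have h5 : |v 0| ≤ 1 := by rw [abs_of_nonneg h0]; exact h1
  rw [mem_closedBall_zero_iff, EuclideanSpace.norm_eq, Fin.sum_univ_two]
  rw [Real.sqrt_le_left (by positivity)]
  simp only [Real.norm_eq_abs]
  have := abs_nonneg (v 0)
  have := abs_nonneg (v 1)
  nlinarith

theorem isCompact_KK (F : List (ℝ × ℝ × ℝ)) : IsCompact (KK F) := by
  unfold KK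
  have : (⋃ f ∈ F, {v : Plane | 0 ≤ v 0 ∧ v 0 ≤ 1 ∧ |v 1 - f.1 * v 0 - f.2.1| ≤ f.2.2}) =
      ⋃ f ∈ F.toFinset, {v : Plane | 0 ≤ v 0 ∧ v 0 ≤ 1 ∧ |v 1 - f.1 * v 0 - f.2.1| ≤ f.2.2} := by
    simp
  rw [this]
  exact F.toFinset.isCompact_biUnion fun f _ => isCompact_piece _ _ _

theorem volume_KK (F : List (ℝ × ℝ × ℝ)) (h : ∀ f ∈ F, 0 < f.2.2) :
    volume (KK F) ≤ ENNReal.ofReal (2 * tot F) := by
  induction F with
  | nil => simp [KK]
  | cons f F ih =>
    have e : KK (f :: F) =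
        {v : Plane | 0 ≤ v 0 ∧ v 0 ≤ 1 ∧ |v 1 - f.1 * v 0 - f.2.1| ≤ f.2.2} ∪ KK F := by
      ext v
      simp [KK]
    rw [e, tot_cons, mul_add]
    have h1 : 0 ≤ tot F := by
      unfold tot
      apply List.sum_nonneg
      intro x hx
      rw [List.mem_map] at hx
      obtain ⟨g, hg, rfl⟩ := hx
      exact (h g (List.mem_cons_of_mem _ hg)).le
    rw [ENNReal.ofReal_add (by have := h f List.mem_cons_self; positivity) (by positivity)]
    refine (measure_union_le _ _).trans ?_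
    gcongr
    · exact volume_piece _ _ _
    · exact ih fun g hg => h g (List.mem_cons_of_mem _ hg)

theorem mem_KK {F : List (ℝ × ℝ × ℝ)} {v : Plane} {a b : ℝ} (h0 : 0 ≤ v 0) (h1 : v 0 ≤ 1)
    (hv : v 1 = a * v 0 + b) (h : blk F a b (v 0)) : v ∈ KK F := by
  obtain ⟨f, hf, h⟩ := h
  refine mem_iUnion₂.2 ⟨f, hf, h0, h1, ?_⟩
  rw [hv]
  have e : a * v 0 + b - f.1 * v 0 - f.2.1 = (a - f.1) * v 0 + (b - f.2.1) := by ring
  rw [e]
  exact h

/-- The algebra of the circle: centre `(u, v)`, through the point `(0, m)`; the height above `x`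
differs from `m - (u / v) x` by at most `4 s²`. -/
theorem arc_close {u v m s x y : ℝ} (hu : |u| ≤ 1 / 2) (hv1 : -(3 / 2) ≤ v) (hv2 : v ≤ -(5 / 4))
    (hs0 : 0 < s) (hs1 : s ≤ 1 / 8) (hm : |m| ≤ s) (hx0 : 0 ≤ x) (hx1 : x ≤ s) (hy : 0 < y - v)
    (hc : (y - v) ^ 2 + (x - u) ^ 2 = u ^ 2 + (m - v) ^ 2) :
    |y - m - (-(u / v)) * x| ≤ 4 * s ^ 2 := by
  rw [abs_le] at hu hm
  set D := y - v with hD
  set D0 := m - v with hD0
  have hD0' : 1 ≤ D0 := by rw [hD0]; linarith
  have hsum : 1 ≤ D + D0 := by linarith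
  have e1 : (D - D0) * (D + D0) = x * (2 * u - x) := by nlinarith
  have e2 : y - m = D - D0 := by rw [hD, hD0]; ring
  have h3 : |x * (2 * u - x)| ≤ 2 * s := by
    rw [abs_mul, abs_of_nonneg hx0]
    have : |2 * u - x| ≤ 2 := by rw [abs_le]; constructor <;> linarith
    nlinarith [abs_nonneg (2 * u - x)]
  have h4 : |D - D0| ≤ 2 * s := by
    have h5 : |D - D0| * (D + D0) = |x * (2 * u - x)| := by
      rw [← e1, abs_mul, abs_of_pos (by linarith : 0 < D + D0)]
    nlinarith [abs_nonneg (D - D0)]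
  -- the key identity
  have hv0 : v < 0 := by linarith
  have hv : v ≠ 0 := hv0.ne
  have e3 : (y - m - (-(u / v)) * x) * ((D + D0) * (-v)) =
      x * (x * v - 2 * u * m - u * (D - D0)) := by
    have h6 : (y - m - (-(u / v)) * x) * ((D + D0) * (-v)) =
        (D - D0) * (D + D0) * (-v) - u * x * (D + D0) := by
      rw [e2]
      field_simp
      ring
    rw [h6, e1]
    have h7 : D + D0 = 2 * m - 2 * v + (D - D0) := by rw [hD0]; ring
    rw [h7]
    ring
  have h8 : |x * (x * v - 2 * u * m - u * (D - D0))| ≤ s * (4 * s) := by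
    rw [abs_mul, abs_of_nonneg hx0]
    have h9 : |x * v - 2 * u * m - u * (D - D0)| ≤ 4 * s := by
      have a1 : |x * v| ≤ 3 / 2 * s := by
        rw [abs_mul, abs_of_nonneg hx0, abs_of_neg hv0]
        nlinarith
      have a2 : |2 * u * m| ≤ s := by
        rw [abs_mul, abs_mul, abs_two]
        have b1 : |u| ≤ 1 / 2 := abs_le.2 hu
        have b2 : |m| ≤ s := abs_le.2 hm
        nlinarith [abs_nonneg u, abs_nonneg m]
      have a3 : |u * (D - D0)| ≤ s := by
        rw [abs_mul]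
        have b1 : |u| ≤ 1 / 2 := abs_le.2 hu
        nlinarith [abs_nonneg u, abs_nonneg (D - D0)]
      calc |x * v - 2 * u * m - u * (D - D0)| ≤ |x * v - 2 * u * m| + |u * (D - D0)| :=
            abs_sub _ _
        _ ≤ |x * v| + |2 * u * m| + |u * (D - D0)| := by
            have := abs_sub (x * v) (2 * u * m)
            linarith
        _ ≤ 4 * s := by linarith
    exact mul_le_mul hx1 h9 (abs_nonneg _) hs0.le
  rw [← e3, abs_mul, abs_of_pos (by nlinarith : 0 < (D + D0) * (-v))] at h8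
  have h10 : 1 ≤ (D + D0) * (-v) := by nlinarith
  nlinarith [abs_nonneg (y - m - (-(u / v)) * x)]

end Pool.Agent.N247.Circ
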