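import Pool.Agent.N247.Circ.Core

/-!
# The circular maximal function is not of restricted weak type (2,2): the estimate
-/

set_option autoImplicit false

open MeasureTheory Set
open scoped ENNReal Pointwise Real

namespace Pool.Agent.N247.Circ

open Pool.Agent.Results.MP_6b55e5_an.RogersQ2

/-- the box of centres -/
def box : Set Plane := {c | |c 0| ≤ 1 / 2 ∧ -(3 / 2) ≤ c 1 ∧ c 1 ≤ -(5 / 4)}

theorem volume_box : ENNReal.ofReal (1 / 4) ≤ volume box := by
  have hmp : MeasurePreserving (fun v : Plane => (v 0, v 1)) volume volume := by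
    have h1 := PiLp.volume_preserving_ofLp (Fin 2)
    have h2 := volume_preserving_finTwoArrow ℝ
    exact h2.comp h1
  have hpre : box = (fun v : Plane => (v 0, v 1)) ⁻¹'
      (Icc (-(1 / 2) : ℝ) (1 / 2) ×ˢ Icc (-(3 / 2) : ℝ) (-(5 / 4))) := by
    ext v
    simp only [box, mem_preimage, mem_prod, mem_Icc, abs_le, Set.mem_ofPred_eq]
  rw [hpre, hmp.measure_preimage (measurableSet_Icc.prod measurableSet_Icc).nullMeasurableSet,
    Measure.volume_eq_prod, Measure.prod_prod, Real.volume_Icc, Real.volume_Icc,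
    ← ENNReal.ofReal_mul (by norm_num)]
  apply ENNReal.ofReal_le_ofReal
  norm_num

set_option maxHeartbeats 1000000 in
/-- the arc -/
theorem arc_measure {F : List (ℝ × ℝ × ℝ)} {ρ s : ℝ} (hs0 : 0 < s) (hs1 : s ≤ 1 / 8)
    (hsρ : 4 * s < ρ)
    (hF : ∀ a, -1 ≤ a → a ≤ 1 → ∃ b0, |b0 - 0| ≤ 1 ∧
        ∀ b, |b - b0| < ρ → ∀ x, 0 ≤ x → x ≤ 1 → blk F a b x) {c : Plane} (hc : c ∈ box) :
    ∃ R : ℝ, 1 ≤ R ∧ R ≤ 2 ∧ ∃ t1 t2 : ℝ, 0 ≤ t1 ∧ t2 ≤ 2 * π ∧ s / 2 ≤ t2 - t1 ∧
      ∀ t ∈ Icc t1 t2, c + R • !₂[Real.cos t, Real.sin t] ∈ s • KK F := by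
  obtain ⟨hu, hv1, hv2⟩ := hc
  set u := c 0 with hu0
  set v := c 1 with hv0
  have hvneg : v < 0 := by linarith
  have huu := abs_le.1 hu
  have ha1 : -1 ≤ -(u / v) := by
    rw [neg_le_neg_iff, div_le_one_of_neg hvneg]
    linarith
  have ha2 : -(u / v) ≤ 1 := by
    rw [neg_le, le_div_iff_of_neg hvneg]
    linarith
  obtain ⟨b0, hb0, hblk⟩ := hF (-(u / v)) ha1 ha2
  rw [sub_zero] at hb0
  have hb0' := abs_le.1 hb0
  set m := s * b0 with hm
  have hmabs : |m| ≤ s := by
    rw [hm, abs_mul, abs_of_pos hs0]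
    nlinarith
  have hm' := abs_le.1 hmabs
  set R := Real.sqrt (u ^ 2 + (m - v) ^ 2) with hR
  have hR2 : R ^ 2 = u ^ 2 + (m - v) ^ 2 := Real.sq_sqrt (by positivity)
  have hmv1 : 1 ≤ m - v := by linarith
  have hmv2 : m - v ≤ 13 / 8 := by linarith
  have hR0 : 0 ≤ R := Real.sqrt_nonneg _
  have hR1 : 1 ≤ R := by nlinarith [sq_nonneg u]
  have hRle : R ≤ 2 := by
    have h1 : u ^ 2 ≤ 1 / 4 := by nlinarith
    have h2 : (m - v) ^ 2 ≤ 13 / 8 * (13 / 8) := by nlinarith
    nlinarith
  have hRpos : 0 < R := by linarith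
  have e1 : -1 ≤ -u / R := by rw [le_div_iff₀ hRpos]; linarith
  have e2 : -u / R ≤ 1 := by rw [div_le_iff₀ hRpos]; linarith
  have e3 : -1 ≤ (s - u) / R := by rw [le_div_iff₀ hRpos]; linarith
  have e4 : (s - u) / R ≤ 1 := by rw [div_le_iff₀ hRpos]; linarith
  set t1 := Real.arccos ((s - u) / R) with ht1
  set t2 := Real.arccos (-u / R) with ht2
  have hct1 : Real.cos t1 = (s - u) / R := Real.cos_arccos e3 e4
  have hct2 : Real.cos t2 = -u / R := Real.cos_arccos e1 e2
  have h01 : 0 ≤ t1 := Real.arccos_nonneg _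
  have h02 : 0 ≤ t2 := Real.arccos_nonneg _
  have hp1 : t1 ≤ π := Real.arccos_le_pi _
  have hp2 : t2 ≤ π := Real.arccos_le_pi _
  have hpi : 0 < π := Real.pi_pos
  have hle : t1 ≤ t2 := by
    apply Real.arccos_le_arccos
    rw [div_le_div_iff_of_pos_right hRpos]
    linarith
  refine ⟨R, hR1, hRle, t1, t2, h01, by linarith, ?_, ?_⟩
  · have h1 : |Real.cos t1 - Real.cos t2| ≤ |t1 - t2| := by
      have := Real.abs_cos_sub_cos_le t1 t2
      exact this
    rw [hct1, hct2, ← sub_div, abs_of_nonpos (by linarith : t1 - t2 ≤ 0)] at h1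
    have h2 : s - u - -u = s := by ring
    rw [h2, abs_of_pos (div_pos hs0 hRpos)] at h1
    have h3 : s / 2 ≤ s / R := div_le_div_of_nonneg_left hs0.le hRpos hRle
    linarith
  · rintro t ⟨ht1', ht2'⟩
    have hcos1 : Real.cos t ≤ (s - u) / R := by
      rw [← hct1]
      exact Real.cos_le_cos_of_nonneg_of_le_pi h01 (ht2'.trans hp2) ht1'
    have hcos2 : -u / R ≤ Real.cos t := by
      rw [← hct2]
      exact Real.cos_le_cos_of_nonneg_of_le_pi (h01.trans ht1') hp2 ht2'
    rw [le_div_iff₀ hRpos] at hcos1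
    rw [div_le_iff₀ hRpos] at hcos2
    set x := u + R * Real.cos t with hx
    set y := v + R * Real.sin t with hy
    have hx0 : 0 ≤ x := by rw [hx]; linarith
    have hx1 : x ≤ s := by rw [hx]; linarith
    have hsin0 : 0 ≤ Real.sin t :=
      Real.sin_nonneg_of_nonneg_of_le_pi (h01.trans ht1') (ht2'.trans hp2)
    have hcirc : (y - v) ^ 2 + (x - u) ^ 2 = u ^ 2 + (m - v) ^ 2 := by
      rw [← hR2, hx, hy]
      have := Real.sin_sq_add_cos_sq t
      linear_combination R ^ 2 * this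
    have hypos : 0 < y - v := by
      have h0 : 0 ≤ y - v := by
        rw [hy]
        have := mul_nonneg hR0 hsin0
        linarith
      rcases h0.lt_or_eq with h | h
      · exact h
      · exfalso
        rw [← h] at hcirc
        have h5 : (x - u) ^ 2 ≤ (7 / 8) ^ 2 := by
          apply sq_le_sq'
          · linarith
          · linarith
        have h8 : 1 ≤ (m - v) ^ 2 := by
          have := mul_le_mul hmv1 hmv1 (by norm_num) (by linarith)
          rw [sq]
          linarith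
        have h9 : 0 ≤ u ^ 2 := sq_nonneg u
        norm_num at hcirc h5
        linarith
    have hclose := arc_close (u := u) (v := v) (m := m) (s := s) (x := x) (y := y) hu hv1 hv2 hs0
      hs1 hmabs hx0 hx1 hypos hcirc
    refine Set.mem_smul_set.2 ⟨s⁻¹ • (c + R • !₂[Real.cos t, Real.sin t]), ?_, ?_⟩
    · have w0 : (s⁻¹ • (c + R • !₂[Real.cos t, Real.sin t]) : Plane) 0 = x / s := by
        simp [hx, hu0]
        field_simp
      have w1 : (s⁻¹ • (c + R • !₂[Real.cos t, Real.sin t]) : Plane) 1 = y / s := by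
        simp [hy, hv0]
        field_simp
      refine mem_KK (a := -(u / v)) (b := y / s - (-(u / v)) * (x / s)) ?_ ?_ ?_ ?_
      · rw [w0]; positivity
      · rw [w0, div_le_one hs0]; exact hx1
      · rw [w0, w1]; ring
      · rw [w0]
        refine hblk _ ?_ _ (by positivity) ((div_le_one hs0).2 hx1)
        have e5 : y / s - (-(u / v)) * (x / s) - b0 = (y - m - (-(u / v)) * x) / s := by
          rw [hm]
          field_simp
          ring
        rw [e5, abs_div, abs_of_pos hs0, div_lt_iff₀ hs0]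
        refine lt_of_le_of_lt hclose ?_
        nlinarith
    · rw [smul_smul, mul_inv_cancel₀ hs0.ne', one_smul]

/-- **Main estimate.** For every `C` there are a compact set `E` and `lam > 0` with
`|{c : M_T χ_E (c) > lam}| > C lam⁻² |E|`, for every set `T` of radii containing `[1,2]`. -/
theorem main (C : ℝ) : ∃ E : Set Plane, IsCompact E ∧ ∃ lam : ℝ, 0 < lam ∧
    ∀ T : Set ℝ, Icc 1 2 ⊆ T →
      ENNReal.ofReal (C * (lam ^ 2)⁻¹) * volume E <
        volume {c : Plane | ENNReal.ofReal lam <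
          ⨆ r ∈ T, ENNReal.ofReal (2 * π)⁻¹ *
            ∫⁻ t in Icc 0 (2 * π),
              ‖(E.indicator (fun _ => (1 : ℂ))) (c + r • !₂[Real.cos t, Real.sin t])‖ₑ} := by
  have hpi : 0 < π := Real.pi_pos
  set ε : ℝ := 1 / (1024 * π ^ 2 * (|C| + 1)) with hε
  have hε0 : 0 < ε := by positivity
  obtain ⟨F, hF0, hF1, ρ, hρ, hF2⟩ := stage 0 1 ε one_pos hε0
  set s : ℝ := min (1 / 8) (ρ / 8) with hs
  have hs0 : 0 < s := lt_min (by norm_num) (by linarith)
  have hs1 : s ≤ 1 / 8 := min_le_left _ _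
  have hs2 : 4 * s < ρ := by
    have : s ≤ ρ / 8 := min_le_right _ _
    linarith
  refine ⟨s • KK F, (isCompact_KK F).smul s, s / (8 * π), by positivity, ?_⟩
  intro T hT
  have hbox : box ⊆ {c : Plane | ENNReal.ofReal (s / (8 * π)) <
          ⨆ r ∈ T, ENNReal.ofReal (2 * π)⁻¹ *
            ∫⁻ t in Icc 0 (2 * π),
              ‖((s • KK F).indicator (fun _ => (1 : ℂ)))
                (c + r • !₂[Real.cos t, Real.sin t])‖ₑ} := by
    intro c hc
    obtain ⟨R, hR1, hR2, t1, t2, ht1, ht2, ht, hmem⟩ := arc_measure hs0 hs1 hs2 hF2 hc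
    have h1 : ENNReal.ofReal (s / 2) ≤ ∫⁻ t in Icc 0 (2 * π),
              ‖((s • KK F).indicator (fun _ => (1 : ℂ)))
                (c + R • !₂[Real.cos t, Real.sin t])‖ₑ := by
      calc ENNReal.ofReal (s / 2) ≤ ENNReal.ofReal (t2 - t1) := ENNReal.ofReal_le_ofReal ht
        _ = ∫⁻ _ in Icc t1 t2, 1 := by
            rw [setLIntegral_const, Real.volume_Icc, one_mul]
        _ = ∫⁻ t in Icc t1 t2, ‖((s • KK F).indicator (fun _ => (1 : ℂ)))
                (c + R • !₂[Real.cos t, Real.sin t])‖ₑ := by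
            apply setLIntegral_congr_fun measurableSet_Icc
            intro t ht
            show _ = ‖((s • KK F).indicator (fun _ => (1 : ℂ)))
                (c + R • !₂[Real.cos t, Real.sin t])‖ₑ
            rw [indicator_of_mem (hmem t ht)]
            simp
        _ ≤ _ := lintegral_mono_set (Icc_subset_Icc ht1 ht2)
    have h2 : ENNReal.ofReal (s / (8 * π)) < ENNReal.ofReal (2 * π)⁻¹ * ENNReal.ofReal (s / 2) := by
      rw [← ENNReal.ofReal_mul (by positivity)]
      apply (ENNReal.ofReal_lt_ofReal_iff (by positivity)).2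
      have e : (2 * π)⁻¹ * (s / 2) = 2 * (s / (8 * π)) := by
        field_simp
        ring
      rw [e]
      have : 0 < s / (8 * π) := by positivity
      linarith
    refine lt_of_lt_of_le h2 ?_
    refine le_trans (by gcongr) (le_iSup₂ (f := fun r (_ : r ∈ T) => ENNReal.ofReal (2 * π)⁻¹ *
            ∫⁻ t in Icc 0 (2 * π),
              ‖((s • KK F).indicator (fun _ => (1 : ℂ)))
                (c + r • !₂[Real.cos t, Real.sin t])‖ₑ) R (hT ⟨hR1, hR2⟩))
  refine lt_of_lt_of_le ?_ (volume_box.trans (measure_mono hbox))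
  rw [Measure.addHaar_smul_of_nonneg _ hs0.le]
  have hfr : Module.finrank ℝ Plane = 2 := by simp [Plane]
  rw [hfr]
  have hvol : volume (KK F) ≤ ENNReal.ofReal (2 * ε) := by
    refine (volume_KK F hF0).trans (ENNReal.ofReal_le_ofReal ?_)
    linarith
  calc ENNReal.ofReal (C * ((s / (8 * π)) ^ 2)⁻¹) * (ENNReal.ofReal (s ^ 2) * volume (KK F))
      ≤ ENNReal.ofReal (|C| * ((s / (8 * π)) ^ 2)⁻¹) *
          (ENNReal.ofReal (s ^ 2) * ENNReal.ofReal (2 * ε)) := by
        gcongr
        exact le_abs_self C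
    _ = ENNReal.ofReal (|C| * ((s / (8 * π)) ^ 2)⁻¹ * (s ^ 2 * (2 * ε))) := by
        rw [← ENNReal.ofReal_mul (by positivity), ← ENNReal.ofReal_mul (by positivity)]
    _ < ENNReal.ofReal (1 / 4) := by
        apply (ENNReal.ofReal_lt_ofReal_iff (by norm_num)).2
        have e : |C| * ((s / (8 * π)) ^ 2)⁻¹ * (s ^ 2 * (2 * ε)) = |C| / (8 * (|C| + 1)) := by
          rw [hε]
          field_simp
          ring
        rw [e, div_lt_div_iff₀ (by positivity) (by norm_num)]
        have := abs_nonneg C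
        linarith

end Pool.Agent.N247.Circ
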